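import Pool.Agent.H22.MSR2

namespace Pool.Agent.Results.MP_eb915b_lc.FPT

open Pool.Agent.H36.Par Pool.Agent.H22.MSR

/-- Maximal strip recovery on two permutations is fixed-parameter tractable for the number `k`
of retained characters. -/
theorem result : FPTOn IsPermInst MSR Pool.Agent.H22.MSR.kOf := fpt

end Pool.Agent.Results.MP_eb915b_lc.FPT
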